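import Pool.Agent.Run7.h745.RV.Iface

/-!
# Piece ACT
-/

set_option autoImplicit false

noncomputable section

namespace Run7.h298.RV

open Filter Topology Matrix Pool.Agent.H188R3 Pool.Agent.Helper133.BT Pool.Agent.Helper133.BU
open Run7.h745 Run7.h745.RV
open scoped ENNReal NNReal

lemma sw_φ {n : ℕ} (f : A n) : sw (n + 1) (φ n f) = φ n (sw n f) := by
  apply A.ext; intro e
  rw [sw_at, φ_at, φ_at, sw_at, sw_at]

lemma sw_sw {n : ℕ} (f : A n) : sw n (sw n f) = f := by
  apply A.ext; intro e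
  rw [sw_at, sw_at]
  simp only [Bool.not_not]

lemma zc_star (n : ℕ) (b : Bool) : star (zc n b) = zc n b := by
  apply A.ext; intro e
  rw [A.at_star, zc_at]
  split_ifs
  · exact star_one _
  · exact star_zero _

lemma zc_mul (n : ℕ) (b : Bool) : zc n b * zc n b = zc n b := by
  apply A.ext; intro e
  rw [A.at_mul, zc_at]
  split_ifs
  · exact one_mul _
  · exact zero_mul _

lemma zc_comm (n : ℕ) (b : Bool) (f : A n) : zc n b * f = f * zc n b := by
  apply A.ext; intro e
  rw [A.at_mul, A.at_mul, zc_at]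
  split_ifs
  · rw [one_mul, mul_one]
  · rw [zero_mul, mul_zero]

lemma sw_zc (n : ℕ) : sw n (zc n true) = 1 - zc n true := by
  apply A.ext; intro e
  rw [sw_at, A.at_sub, A.at_one, zc_at, zc_at]
  rcases e with ⟨b, ω⟩
  cases b
  · simp
  · simp

theorem t_ACT : S_ACT := by
  intro L _ j h
  obtain ⟨G, hG⟩ := h.lift (fun n => (j n).comp (sw n)) (fun n x => by
    show j (n + 1) (sw (n + 1) (φ n x)) = j n (sw n x)
    rw [sw_φ, h.comp])
  have hG' : ∀ n x, G (j n x) = j n (sw n x) := hG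
  have hGG : G.comp G = StarAlgHom.id ℂ L := by
    refine h.hom_ext fun n x => ?_
    show G (G (j n x)) = j n x
    rw [hG', hG', sw_sw]
  have hGx : ∀ x, G (G x) = x := fun x => DFunLike.congr_fun hGG x
  let β : L ≃⋆ₐ[ℂ] L := StarAlgEquiv.ofBijective G ⟨fun x y hxy => by
    rw [← hGx x, hxy, hGx], fun x => ⟨G x, hGx x⟩⟩
  have hβ : ∀ x, β x = G x := fun x => rfl
  refine ⟨β, fun x => by rw [hβ, hβ, hGx], fun F ε hε => ?_⟩
  obtain ⟨N, hN⟩ := h.approx_finset F id (half_pos hε)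
  obtain ⟨x, hx⟩ := hN N le_rfl
  set e : L := j N (zc N true) with he
  have hes : IsStarProjection e := by
    refine ⟨?_, ?_⟩
    · show e * e = e
      rw [he, ← map_mul, zc_mul]
    · show star e = e
      rw [he, ← map_star, zc_star]
  have hen : ‖e‖ ≤ 1 := hes.norm_le
  refine ⟨e, hes, by rw [hβ, he, hG', sw_zc, map_sub, map_one], fun a ha => ?_⟩
  have h1 : e * a - a * e = e * (a - j N (x a)) - (a - j N (x a)) * e := by
    have h2 : e * j N (x a) = j N (x a) * e := by rw [he, ← map_mul, zc_comm, map_mul]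
    rw [mul_sub, sub_mul, h2]
    abel
  rw [h1]
  have h3 : ‖a - j N (x a)‖ < ε / 2 := hx a ha
  calc ‖e * (a - j N (x a)) - (a - j N (x a)) * e‖
      ≤ ‖e * (a - j N (x a))‖ + ‖(a - j N (x a)) * e‖ := norm_sub_le _ _
    _ ≤ ‖e‖ * ‖a - j N (x a)‖ + ‖a - j N (x a)‖ * ‖e‖ :=
        add_le_add (norm_mul_le _ _) (norm_mul_le _ _)
    _ ≤ 1 * ‖a - j N (x a)‖ + ‖a - j N (x a)‖ * 1 := by gcongr
    _ < ε := by linarith

end Run7.h298.RV
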