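import Pool.Agent.Run7.h745.RV.Iface

/-!
# Piece RC
-/

set_option autoImplicit false

noncomputable section

namespace Run7.h298.RV

open Filter Topology Matrix Pool.Agent.H188R3 Pool.Agent.Helper133.BT Pool.Agent.Helper133.BU
open Run7.h745 Run7.h745.RV
open scoped ENNReal NNReal

lemma dimFn_proj {A : Type} [CStarAlgebra A] (τ : QT A) {n : ℕ} (p : Matrix (Fin n) (Fin n) A)
    (hp : pᴴ = p) (hpp : p * p = p) :
    IsPos p ∧ τ.dimFn p = ENNReal.ofReal (τ.val n p).re := by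
  have hpos : IsPos p := ⟨p, by rw [hp, hpp]⟩
  have hr : ∀ k, proot p k = p := fun k => by
    rw [proot_eq p hpos k]
    exact (root_eq p p k hpos (IsIdempotentElem.pow_succ_eq k hpp)).symm
  refine ⟨hpos, ?_⟩
  unfold QT.dimFn
  simp only [hr]
  exact Filter.liminf_const _

lemma om_star {L : Type} [CStarAlgebra L] (x : L) : (om x)ᴴ = om (star x) := by
  ext i j; rfl

lemma om_mul {L : Type} [CStarAlgebra L] (x y : L) : om x * om y = om (x * y) := by
  ext i j
  rw [Matrix.mul_apply, Fin.sum_univ_one]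
  rfl

lemma e0_star (n : ℕ) : star (e0 n) = e0 n := by
  apply A.ext; intro e
  rw [A.at_star]
  show star (MA.unit (r0 n) (r0 n)) = MA.unit (r0 n) (r0 n)
  ext p q
  rw [MA.en_star, MA.en_unit, MA.en_unit]
  by_cases h1 : p = r0 n <;> by_cases h2 : q = r0 n <;> simp [h1, h2]

lemma e0_mul (n : ℕ) : e0 n * e0 n = e0 n := by
  apply A.ext; intro e
  rw [A.at_mul]
  show MA.unit (r0 n) (r0 n) * MA.unit (r0 n) (r0 n) = MA.unit (r0 n) (r0 n)
  ext p q
  rw [MA.en_mul, MA.en_unit]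
  rw [Finset.sum_eq_single (r0 n)]
  · rw [MA.en_unit, MA.en_unit]
    by_cases h1 : p = r0 n <;> by_cases h2 : q = r0 n <;> simp [h1, h2]
  · intro b _ hb
    rw [MA.en_unit, if_neg (fun h => hb h.2), zero_mul]
  · intro h; exact absurd (Finset.mem_univ _) h

theorem t_RC : Run7.h745.RV.S_RC := by
  intro hQ hN L _ j h
  unfold radComp
  refine le_iInf fun r => le_iInf fun hr => ?_
  by_contra hlt
  push Not at hlt
  set x : L := j 2 (e0 2) with hx
  have hxs : star x = x := by rw [hx, ← map_star, e0_star]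
  have hxx : x * x = x := by rw [hx, ← map_mul, e0_mul]
  have hys : star (1 - x) = 1 - x := by rw [star_sub, star_one, hxs]
  have hyy : (1 - x) * (1 - x) = 1 - x := by
    rw [sub_mul, mul_sub, mul_sub, one_mul, one_mul, mul_one, hxx, sub_self, sub_zero]
  have hx1 : (om x)ᴴ = om x := by rw [om_star, hxs]
  have hx2 : om x * om x = om x := by rw [om_mul, hxx]
  have hy1 : (om (1 - x))ᴴ = om (1 - x) := by rw [om_star, hys]
  have hy2 : om (1 - x) * om (1 - x) = om (1 - x) := by rw [om_mul, hyy]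
  refine hN L j h 2 (hr 1 _ _ ⟨om x, by rw [hx1, hx2]⟩ ⟨om (1 - x), by rw [hy1, hy2]⟩ fun τ => ?_)
  rw [(dimFn_proj τ _ hx1 hx2).2, (dimFn_proj τ _ hy1 hy2).2, (hQ L j h τ 2).1, (hQ L j h τ 2).2]
  have hr' : r < 1 / 2 := by
    have h1 : (r : ℝ≥0∞) < ((1 / 2 : ℝ≥0) : ℝ≥0∞) := by
      rw [ENNReal.coe_div (by norm_num), ENNReal.coe_one, ENNReal.coe_ofNat]
      exact hlt
    exact ENNReal.coe_lt_coe.1 h1
  have e1 : (((1 : ℂ) / 2) ^ 2).re = 1 / 4 := by
    have : ((1 : ℂ) / 2) ^ 2 = ((1 / 4 : ℝ) : ℂ) := by push_cast; norm_num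
    rw [this, Complex.ofReal_re]
  have e2 : (1 - ((1 : ℂ) / 2) ^ 2).re = 3 / 4 := by
    have : 1 - ((1 : ℂ) / 2) ^ 2 = ((3 / 4 : ℝ) : ℂ) := by push_cast; norm_num
    rw [this, Complex.ofReal_re]
  rw [e1, e2]
  have hr2 : (r : ℝ) < 1 / 2 := by exact_mod_cast hr'
  have e3 : (r : ℝ≥0∞) = ENNReal.ofReal (r : ℝ) := (ENNReal.ofReal_coe_nnreal).symm
  rw [e3, ← ENNReal.ofReal_add (by norm_num) r.coe_nonneg]
  exact (ENNReal.ofReal_lt_ofReal_iff (by norm_num)).2 (by linarith)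

end Run7.h298.RV
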